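import Pool.Agent.Results.MP_6bc78b_nt.IsolatedSimpleZeros
import Pool.Agent.V1161.VC.Set

/-!
# Isolated simple zeros of Hardy's function at polynomial distances

Unconditionally.  For every `d` and `0 < κ ≤ 1/30` there are an integer `M`, `c > 0` and `h₀ < 1` such that for all
large `T`, all `H` with `T ^ h₀ ≤ H ≤ T` and every real polynomial `β(x) = β_1 x + … + β_d x^d` with
`|β_r| ≤ c H` there is an integer `1 ≤ m ≤ M` with the following property: for at least `(κ/20) N(T, T + H)` zeros `t`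
of `Z` the zero `t` is simple and isolated, and there is another such zero within `κ / log T` of `t + β(m)`.
Isolated: all other zeros of zeta in the critical strip, on or off the critical line, have distance at least
`κ / log T`.

The proportion `κ / 20` does not depend on the degree and is linear in `κ`; zeros placed at random would give
`κ / π`.  For progressions and general linear patterns a positive proportion, depending on the
pattern, follows from the density Hales-Jewett theorem (`SzemerediSimpleZeros`); the polynomial case is not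
covered by it.

Proof.  The intervals of length `κ / log T` around the isolated simple zeros are disjoint, and their union `A` has
density at least `0.588 κ / 2π` by the starting result `IsolatedSimpleZeros`.  For some `m` the correlation of `A` and
`A - β(m)` is at least the square of the density minus `ε` (`VC.real_poly_set`, from a finitely supported
probability measure on the positive integers whose polynomial Fourier transform is nowhere less than `-ε`).
-/

open Filter Topology Complex MeasureTheory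

namespace Pool.Agent.Results.MP_6bc78b_nt.PolynomialPairs

/-- the phase `exp (i ϑ(t))`, with `ϑ(t) = arg Γ(1/4 + i t / 2) - (t / 2) log π` -/
noncomputable def phase (t : ℝ) : ℂ :=
  Gamma (1 / 4 + I * t / 2) / ‖Gamma (1 / 4 + I * t / 2)‖ * cexp (-(I * (t / 2) * Real.log Real.pi))

/-- Hardy's function `Z(t) = exp (i ϑ(t)) ζ(1/2 + i t)` -/
noncomputable def Z (t : ℝ) : ℂ := phase t * riemannZeta (1 / 2 + I * t)

/-- the simple real zeros `t` of `Z` in `(T₁, T₂]` for which `1/2 + it` has distance at least `d`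
from all other zeros of zeta in the open critical strip -/
def isolated (T₁ T₂ d : ℝ) : Set ℝ :=
  {t : ℝ | T₁ < t ∧ t ≤ T₂ ∧ Z t = 0 ∧ deriv Z t ≠ 0 ∧
    ∀ s : ℂ, riemannZeta s = 0 → 0 < s.re → s.re < 1 → s ≠ 1 / 2 + I * t →
      d ≤ ‖s - (1 / 2 + I * t)‖}

/-- the nontrivial zeros of zeta with ordinate in `(T₁, T₂]` -/
def zeros (T₁ T₂ : ℝ) : Set ℂ :=
  {s : ℂ | riemannZeta s = 0 ∧ 0 < s.re ∧ s.re < 1 ∧ T₁ < s.im ∧ s.im ≤ T₂}

/-- the number of nontrivial zeros with ordinate in `(T₁, T₂]`, counted with multiplicity -/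
noncomputable def N (T₁ T₂ : ℝ) : ℕ := ∑ᶠ s ∈ zeros T₁ T₂, analyticOrderNatAt riemannZeta s

lemma isolated_eq (T₁ T₂ d : ℝ) : isolated T₁ T₂ d = IsolatedSimpleZeros.isolated T₁ T₂ d := rfl

/-- the sets of isolated simple zeros are finite -/
theorem isolated_finite (T₁ T₂ d : ℝ) (h : 0 < T₁) : (isolated T₁ T₂ d).Finite :=
  IsolatedSimpleZeros.isolated_finite T₁ T₂ d h

/-- the sets of zeros counted by `N` are finite -/
theorem zeros_finite (T₁ T₂ : ℝ) (h : 0 < T₁) : (zeros T₁ T₂).Finite :=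
  IsolatedSimpleZeros.zeros_finite T₁ T₂ h

lemma N_eq (T₁ T₂ : ℝ) : N T₁ T₂ = H370.NN riemannZeta T₁ T₂ := IsolatedSimpleZeros.N_eq T₁ T₂

/-- two isolated zeros are far apart -/
lemma far {T₁ T₂ d t u : ℝ} (ht : t ∈ isolated T₁ T₂ d) (hu : u ∈ isolated T₁ T₂ d) (h : t ≠ u) :
    d ≤ |u - t| := by
  have h1 := ht.2.2.2.2 (1 / 2 + I * u) ((IsolatedSimpleZeros.Z_zero_iff u).1 hu.2.2.1) (by simp)
    (by simp; norm_num) (fun h2 => h (by simpa using (congrArg Complex.im h2).symm))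
  have h2 : (1 / 2 + I * (u : ℂ)) - (1 / 2 + I * t) = I * ((u - t : ℝ) : ℂ) := by
    push_cast
    ring
  rw [h2, norm_mul, Complex.norm_I, one_mul, Complex.norm_real, Real.norm_eq_abs] at h1
  exact h1

/-- counting zeros in short intervals -/
lemma count {η : ℝ} (hη : 0 < η) : ∃ T₀ : ℝ, 10 ≤ T₀ ∧ ∀ T : ℝ, T₀ ≤ T → ∀ H : ℝ,
    T ^ (1 / 2 : ℝ) ≤ H → H ≤ T →
    1 / η ≤ H ∧ (1 - η) * (H * Real.log T / (2 * Real.pi)) ≤ (N T (T + H) : ℝ) ∧
      (N T (T + H) : ℝ) ≤ (1 + η) * (H * Real.log T / (2 * Real.pi)) := by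
  have hpi := Real.pi_pos
  obtain ⟨C, hC, hc⟩ := H295SI.countShort riemannZeta H370.good_zeta
  set a : ℝ := 4 * Real.pi * C / η + 1 with ha
  have ha0 : 0 < a := by positivity
  have h1 : ∀ᶠ T : ℝ in atTop, a ≤ Real.log T := Real.tendsto_log_atTop.eventually_ge_atTop _
  have h2 : ∀ᶠ T : ℝ in atTop, Real.log T ≤ (1 / a) * T ^ (1 / 2 : ℝ) := by
    have h3 := (isLittleO_log_rpow_atTop (r := 1 / 2) (by norm_num)).bound
      (c := 1 / a) (by positivity)
    filter_upwards [h3, eventually_ge_atTop (1 : ℝ)] with T hT hT1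
    have h4 : (0 : ℝ) ≤ T ^ (1 / 2 : ℝ) := by positivity
    rw [Real.norm_eq_abs, Real.norm_eq_abs, abs_of_nonneg h4,
      abs_of_nonneg (Real.log_nonneg hT1)] at hT
    exact hT
  have h3 : ∀ᶠ T : ℝ in atTop, max 3 (1 / η) ≤ T ^ (1 / 2 : ℝ) :=
    (tendsto_rpow_atTop (by norm_num)).eventually_ge_atTop _
  obtain ⟨T₁, hT₁⟩ := eventually_atTop.1 (h1.and (h2.and (h3.and (eventually_ge_atTop (10 : ℝ)))))
  refine ⟨max T₁ 10, le_max_right _ _, fun T hT H hH1 hH2 => ?_⟩
  obtain ⟨a1, a2, a3, -⟩ := hT₁ T ((le_max_left _ _).trans hT)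
  have hT10 : 10 ≤ T := (le_max_right _ _).trans hT
  have hL : 0 < Real.log T := by linarith
  have hH3 : 3 ≤ H := ((le_max_left _ _).trans a3).trans hH1
  have hHη : 1 / η ≤ H := ((le_max_right _ _).trans a3).trans hH1
  have hH0 : 0 < H := by linarith
  obtain ⟨c1, -⟩ := hc T hT10 H hH3 hH2 T (T + H) le_rfl (by linarith) (by linarith) le_rfl
  rw [abs_le] at c1
  rw [N_eq]
  have b1 : a * Real.log T ≤ H := by
    refine le_trans ?_ hH1
    have := mul_le_mul_of_nonneg_left a2 ha0.le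
    rw [← mul_assoc, mul_one_div_cancel ha0.ne', one_mul] at this
    exact this
  have hCa : C ≤ η * a / (4 * Real.pi) := by
    rw [le_div_iff₀ (by positivity), ha, mul_add, mul_div_cancel₀ _ hη.ne']
    linarith
  have hCH : ∀ x : ℝ, 0 ≤ x → C * x ≤ η / (4 * Real.pi) * (a * x) := by
    intro x hx
    calc C * x ≤ η * a / (4 * Real.pi) * x := mul_le_mul_of_nonneg_right hCa hx
      _ = _ := by ring
  have d1 : C * H ≤ η / 2 * (H * Real.log T / (2 * Real.pi)) := by
    refine (hCH H hH0.le).trans ?_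
    have h5 : a * H ≤ H * Real.log T := by
      rw [mul_comm]; exact mul_le_mul_of_nonneg_left a1 hH0.le
    calc η / (4 * Real.pi) * (a * H) ≤ η / (4 * Real.pi) * (H * Real.log T) :=
          mul_le_mul_of_nonneg_left h5 (by positivity)
      _ = _ := by field_simp; ring
  have d2 : C * (Real.log T) ^ 2 ≤ η / 2 * (H * Real.log T / (2 * Real.pi)) := by
    refine (hCH _ (by positivity)).trans ?_
    have h5 : a * (Real.log T) ^ 2 ≤ H * Real.log T := by
      have := mul_le_mul_of_nonneg_right b1 hL.le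
      nlinarith
    calc η / (4 * Real.pi) * (a * (Real.log T) ^ 2) ≤ η / (4 * Real.pi) * (H * Real.log T) :=
          mul_le_mul_of_nonneg_left h5 (by positivity)
      _ = _ := by field_simp; ring
  have e1 : (T + H - T) = H := by ring
  refine ⟨hHη, ?_, ?_⟩
  · have := c1.1
    linarith
  · have := c1.2
    linarith

/-- **Isolated simple zeros of Hardy's function at polynomial distances.** -/
theorem result :
    ∀ (d : ℕ) (κ : ℝ), 0 < κ → κ ≤ 1 / 30 → ∃ (M : ℕ) (c h₀ T₀ : ℝ), 1 ≤ M ∧ 0 < c ∧ h₀ < 1 ∧ 10 ≤ T₀ ∧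
      ∀ T : ℝ, T₀ ≤ T → ∀ H : ℝ, T ^ h₀ ≤ H → H ≤ T →
        ∀ β : Fin d → ℝ, (∀ r, |β r| ≤ c * H) → ∃ m : ℕ, 1 ≤ m ∧ m ≤ M ∧
          κ / 20 * (N T (T + H) : ℝ) ≤
            ({t : ℝ | t ∈ isolated T (T + H) (κ / Real.log T) ∧
              ∃ u ∈ isolated T (T + H) (κ / Real.log T),
                |u - (t + ∑ r, β r * (m : ℝ) ^ ((r : ℕ) + 1))| < κ / Real.log T}.ncard : ℝ) := by
  classical
  intro d κ hκ hκ1
  have hpi := Real.pi_pos
  obtain ⟨-, h2, -, h4⟩ := IsolatedSimpleZeros.result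
  obtain ⟨κ₁, h₁, hκ₁, hh0, hh1, hiso⟩ := h2
  obtain ⟨T₁, hT₁⟩ := hiso κ hκ hκ1
  obtain ⟨T₂, hT₂, hcount⟩ := count (η := 1 / 1000) (by norm_num)
  set δ : ℝ := 588 / 1000 * κ / (2 * Real.pi) with hδ
  have hδ0 : 0 < δ := by positivity
  obtain ⟨M, c, hM, hc, hpoly⟩ := V1161.VC.real_poly_set d (ε := δ ^ 2 / 100) (by positivity)
  refine ⟨M, c, max h₁ (1 / 2), max T₁ T₂, hM, hc, max_lt hh1 (by norm_num),
    hT₂.trans (le_max_right _ _), ?_⟩
  intro T hT H hH1 hH2 β hβ
  have hTT1 : T₁ ≤ T := (le_max_left _ _).trans hT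
  have hTT2 : T₂ ≤ T := (le_max_right _ _).trans hT
  have hT10 : 10 ≤ T := hT₂.trans hTT2
  have hHa : T ^ h₁ ≤ H :=
    (Real.rpow_le_rpow_of_exponent_le (by linarith) (le_max_left _ _)).trans hH1
  have hHb : T ^ (1 / 2 : ℝ) ≤ H :=
    (Real.rpow_le_rpow_of_exponent_le (by linarith) (le_max_right _ _)).trans hH1
  obtain ⟨hH3, hN1, hN2⟩ := hcount T hTT2 H hHb hH2
  have hd := hT₁ T hTT1 H hHa hH2
  have hL1 : 1 ≤ Real.log T := by
    rw [Real.le_log_iff_exp_le (by linarith)]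
    linarith [Real.exp_one_lt_d9]
  have hL0 : 0 < Real.log T := by linarith
  have hH1000 : (1000 : ℝ) ≤ H := by norm_num at hH3; exact hH3
  have hH0 : 0 < H := by linarith
  set D : ℝ := κ / Real.log T with hD
  have hD0 : 0 < D := by positivity
  have hD1 : D ≤ 1 := by
    have : κ / Real.log T ≤ κ := div_le_self hκ.le hL1
    rw [hD]; linarith
  obtain ⟨ρ, hρ⟩ : ∃ ρ : ℝ, ρ = D / 2 := ⟨_, rfl⟩
  have hρ0 : 0 < ρ := by rw [hρ]; positivity
  have hρ2 : 2 * ρ = D := by rw [hρ]; ring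
  have hfin : (isolated T (T + H) D).Finite := isolated_finite T (T + H) D (by linarith)
  obtain ⟨S, hS⟩ : ∃ S : Finset ℝ, S = hfin.toFinset := ⟨_, rfl⟩
  have hmem : ∀ t, t ∈ S ↔ t ∈ isolated T (T + H) D := by
    intro t
    rw [hS, Set.Finite.mem_toFinset]
  have hcard : ((isolated T (T + H) D).ncard : ℝ) = (S.card : ℝ) := by
    rw [Set.ncard_eq_toFinset_card _ hfin, hS]
  set X : ℝ := H * Real.log T / (2 * Real.pi) with hX
  have hX0 : 0 < X := by positivity
  -- the number of isolated zeros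
  have hSX : 589 / 1000 * X ≤ S.card := by
    have h5 : (2 - IsolatedSimpleZeros.c 1 + κ₁ - 74 * κ ^ 2) * (N T (T + H) : ℝ) ≤ S.card := by
      rw [← hcard]
      exact hd
    have h6 : (590 / 1000 : ℝ) ≤ 2 - IsolatedSimpleZeros.c 1 + κ₁ - 74 * κ ^ 2 := by
      have h7 : κ ^ 2 ≤ (1 / 30) ^ 2 := pow_le_pow_left₀ hκ.le hκ1 2
      norm_num at h4 h7 ⊢
      linarith
    have h7 := mul_le_mul_of_nonneg_right h6 (Nat.cast_nonneg (α := ℝ) (N T (T + H)))
    have h8 : (590 / 1000 : ℝ) * ((1 - 1 / 1000) * X) ≤ 590 / 1000 * (N T (T + H) : ℝ) :=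
      mul_le_mul_of_nonneg_left hN1 (by norm_num)
    have h9 : 589 / 1000 * X ≤ (590 / 1000 : ℝ) * ((1 - 1 / 1000) * X) := by
      have : (590 / 1000 : ℝ) * ((1 - 1 / 1000) * X) = (590 / 1000 * (1 - 1 / 1000)) * X := by ring
      rw [this]
      apply mul_le_mul_of_nonneg_right _ hX0.le
      norm_num
    linarith
  obtain ⟨A, hA⟩ : ∃ A : Set ℝ, A = ⋃ t ∈ S, Set.Ioo (t - ρ) (t + ρ) := ⟨_, rfl⟩
  have hAm : MeasurableSet A := by
    rw [hA]
    exact Finset.measurableSet_biUnion _ fun t _ => measurableSet_Ioo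
  have hAs : A ⊆ Set.Icc (T - 1 / 2) (T - 1 / 2 + (H + 1)) := by
    intro x hx
    rw [hA, Set.mem_iUnion₂] at hx
    obtain ⟨t, ht, hx1⟩ := hx
    have ht' := (hmem t).1 ht
    have h1 := ht'.1
    have h2 := ht'.2.1
    constructor
    · linarith [hx1.1]
    · linarith [hx1.2]
  have hIoo : ∀ t : ℝ, volume (Set.Ioo (t - ρ) (t + ρ)) = ENNReal.ofReal (2 * ρ) := by
    intro t
    rw [Real.volume_Ioo]
    congr 1
    ring
  have hAv : volume A = ENNReal.ofReal (S.card * (2 * ρ)) := by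
    rw [hA, measure_biUnion_finset ?_ fun t _ => measurableSet_Ioo]
    · simp_rw [hIoo]
      rw [Finset.sum_const, nsmul_eq_mul, ENNReal.ofReal_mul (Nat.cast_nonneg _),
        ENNReal.ofReal_natCast]
    · intro t ht u hu htu
      rw [Finset.mem_coe] at ht hu
      have h1 := far ((hmem t).1 ht) ((hmem u).1 hu) htu
      rw [Function.onFun, Set.disjoint_left]
      intro x hx1 hx2
      have h2 : |u - t| < 2 * ρ := by
        rw [abs_lt]
        constructor <;> linarith [hx1.1, hx1.2, hx2.1, hx2.2]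
      linarith
  have hAd : ENNReal.ofReal (δ * (H + 1)) ≤ volume A := by
    rw [hAv]
    refine ENNReal.ofReal_le_ofReal ?_
    rw [hρ2]
    have h2 := mul_le_mul_of_nonneg_right hSX hD0.le
    refine le_trans ?_ h2
    have h3 : 589 / 1000 * X * D = 589 / 1000 * κ / (2 * Real.pi) * H := by
      rw [hX, hD]; field_simp
    rw [h3, hδ]
    have h5 : 588 / 1000 * κ / (2 * Real.pi) * (H + 1) = κ / (2 * Real.pi) * (588 / 1000 * (H + 1)) := by
      ring
    have h6 : 589 / 1000 * κ / (2 * Real.pi) * H = κ / (2 * Real.pi) * (589 / 1000 * H) := by ring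
    rw [h5, h6]
    apply mul_le_mul_of_nonneg_left _ (by positivity)
    linarith
  obtain ⟨m, hm1, hm2, hv⟩ := hpoly (T - 1 / 2) (H + 1) (by linarith) A hAm hAs δ hδ0.le hAd β
    (fun r => (hβ r).trans (mul_le_mul_of_nonneg_left (by linarith) hc.le))
  refine ⟨m, hm1, hm2, ?_⟩
  set s : ℝ := ∑ r, β r * (m : ℝ) ^ ((r : ℕ) + 1) with hs
  set Q : Set ℝ := {t : ℝ | t ∈ isolated T (T + H) D ∧ ∃ u ∈ isolated T (T + H) D,
    |u - (t + s)| < D} with hQ
  obtain ⟨P, hP⟩ : ∃ P : Finset ℝ, P = S.filter fun t => t ∈ Q := ⟨_, rfl⟩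
  have hPc : Q.ncard = P.card := by
    rw [← Set.ncard_coe_finset]
    congr 1
    ext t
    rw [hP, Finset.mem_coe, Finset.mem_filter, hmem]
    exact ⟨fun h => ⟨h.1, h⟩, fun h => h.2⟩
  rw [hPc]
  have hsub : {x | x ∈ A ∧ x + s ∈ A} ⊆ ⋃ t ∈ P, Set.Ioo (t - ρ) (t + ρ) := by
    rintro x ⟨hx, hxs⟩
    rw [hA, Set.mem_iUnion₂] at hx
    obtain ⟨t, ht, hx1⟩ := hx
    rw [hA, Set.mem_iUnion₂] at hxs
    obtain ⟨u, hu, hx2⟩ := hxs
    rw [Set.mem_iUnion₂]
    refine ⟨t, ?_, hx1⟩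
    rw [hP, Finset.mem_filter]
    refine ⟨ht, (hmem t).1 ht, u, (hmem u).1 hu, ?_⟩
    rw [abs_lt]
    constructor <;> linarith [hx1.1, hx1.2, hx2.1, hx2.2]
  have hfinal : ENNReal.ofReal ((δ ^ 2 - δ ^ 2 / 100) * (H + 1)) ≤ ENNReal.ofReal (P.card * (2 * ρ)) := by
    refine hv.trans ((measure_mono hsub).trans ((measure_biUnion_finset_le _ _).trans ?_))
    simp_rw [hIoo]
    rw [Finset.sum_const, nsmul_eq_mul, ENNReal.ofReal_mul (Nat.cast_nonneg _),
      ENNReal.ofReal_natCast]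
  rw [ENNReal.ofReal_le_ofReal_iff (by positivity), hρ2] at hfinal
  have h3 : (99 / 100 * δ ^ 2) * H ≤ P.card * D := by
    refine le_trans ?_ hfinal
    have h5 : δ ^ 2 - δ ^ 2 / 100 = 99 / 100 * δ ^ 2 := by ring
    rw [h5]
    apply mul_le_mul_of_nonneg_left _ (by positivity)
    linarith
  have h5 : (99 / 100 * δ ^ 2) * H = (99 / 100 * (588 / 1000) ^ 2 / (2 * Real.pi) * κ * X) * D := by
    rw [hδ, hX, hD]; field_simp
  rw [h5] at h3
  have h6 := le_of_mul_le_mul_right h3 hD0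
  refine le_trans ?_ h6
  have hpi2 := Real.pi_lt_d2
  have h7 : κ / 20 * (N T (T + H) : ℝ) ≤ κ / 20 * ((1 + 1 / 1000) * X) :=
    mul_le_mul_of_nonneg_left hN2 (by positivity)
  refine h7.trans ?_
  have h8 : κ / 20 * ((1 + 1 / 1000) * X) = (1 / 20 * (1 + 1 / 1000)) * (κ * X) := by ring
  have h9 : 99 / 100 * (588 / 1000) ^ 2 / (2 * Real.pi) * κ * X =
    (99 / 100 * (588 / 1000) ^ 2 / (2 * Real.pi)) * (κ * X) := by ring
  rw [h8, h9]
  apply mul_le_mul_of_nonneg_right _ (by positivity)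
  rw [le_div_iff₀ (by positivity)]
  norm_num
  nlinarith

end Pool.Agent.Results.MP_6bc78b_nt.PolynomialPairs
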