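import Pool.Agent.V11288.HS.Pole4

/-!
# Simple zeros of Hardy's function and the prime numbers

Let `Z(t) = e^{iϑ(t)} ζ(1/2 + it)` be Hardy's function, `e^{iϑ(t)} = π^{-it/2} Γ(1/4 + it/2)/|Γ(1/4 + it/2)|`.
For real `τ` and `Y > 1` let

`log |P_τ(Y)| = ∑_{p^j ≤ Y} cos(jτ log p) / (j p^{j/2})`,

the logarithm of the absolute value of the partial Euler product of `ζ` over the prime powers at `1/2 + iτ`.
It is shown for ALL real `τ`, `ρ` and all `A > 0`: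

1. The integral

`∫_1^∞ (log |P_τ(Y)| - Re Ei((1/2 - iτ) log Y) + ρ (log log Y + γ) - log A)² dY/Y`

converges IF AND ONLY IF the Riemann hypothesis holds, `ρ` is the multiplicity `n` of the zero `τ` of `Z` (`n = 0`
if `Z(τ) ≠ 0`) and `|Z(t)| / |t - τ|^n → A` for `t → τ`, that is `A = |Z^{(n)}(τ)|/n!`.

2. In this case the integral is EQUAL to

`(1/(4π)) ∫_{-∞}^∞ (log |Λ(τ+t)| + log |Λ(τ-t)| - 2ρ log |t| - 2 log (A |τ + i/2|))² dt/t²`,

where `|Λ(u)| = |u + i/2| |Z(u)|`.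

3. For `ρ = 1`: the integral with `ρ = 1` converges if and only if the Riemann hypothesis holds and `Z` has a
SIMPLE zero at `τ` with `|Z'(τ)| = A`.

4. The Riemann hypothesis holds and all real zeros of `Z` are simple IF AND ONLY IF for every real `τ`
there is an `A > 0` such that the integral with `ρ = 0` or with `ρ = 1` converges.

Proof.  `ζ(s₀ + s) conj ζ(s₀ + conj s)` is an Euler product with real traces.  The mean square deviation of its
logarithm is the `H²`-norm of `(log G(s) - 2ρ log s - 2 log A)/s` in the half plane `Re s > 0`, and this is twice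
the `L²`-norm of the imaginary part of the boundary function; the term with the exponential integral removes
the pole of `ζ` (`Pool.Agent.V11288.HS`).
-/

set_option autoImplicit false

namespace Pool.Agent.Results.MP_6bc78b_nt.SimpleZerosAndPrimes

open Filter Topology MeasureTheory Set Complex

/-- Hardy's function, `Z(t) = π^{-it/2} Γ(1/4 + it/2) / |Γ(1/4 + it/2)| · ζ(1/2 + it)`, as a function with
complex values (its values are real). -/
noncomputable def hardyZ (t : ℝ) : ℂ :=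
  (Real.pi : ℂ) ^ (-(I * t / 2)) * Gamma (1 / 4 + I * t / 2) / ‖Gamma (1 / 4 + I * t / 2)‖ *
    riemannZeta (1 / 2 + I * t)

/-- The Riemann hypothesis: `ζ` has no zeros with `Re s > 1/2`. -/
def RH : Prop := ∀ s : ℂ, 1 / 2 < s.re → s ≠ 1 → riemannZeta s ≠ 0

/-- `log |P_τ(Y)|`: the sum of `cos(j τ log p) / (j p^{j/2})` over all primes `p` and `j ≥ 1` (here
`j = v.2 + 1`) with `p^j ≤ Y`. -/
noncomputable def logAbsP (τ Y : ℝ) : ℝ :=
  ∑ᶠ (v : Nat.Primes × ℕ) (_ : ((v.1 : ℕ) : ℝ) ^ (v.2 + 1) ≤ Y),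
    Real.cos (((v.2 : ℝ) + 1) * τ * Real.log ((v.1 : ℕ) : ℝ)) /
      (((v.2 : ℝ) + 1) * ((v.1 : ℕ) : ℝ) ^ (((v.2 : ℝ) + 1) / 2))

/-- `Re Ei(z) = γ + log |z| + Re ∑_{n ≥ 1} z^n / (n n!)`, the real part of the exponential integral. -/
noncomputable def reEi (z : ℂ) : ℝ :=
  Real.eulerMascheroniConstant + Real.log ‖z‖ +
    (∑' n : ℕ, z ^ (n + 1) / (((n : ℂ) + 1) * ((n + 1).factorial : ℂ))).re

/-- `∫_1^∞ (log |P_τ(Y)| - Re Ei((1/2 - iτ) log Y) + ρ (γ + log log Y) - log A)² dY/Y ∈ [0, ∞]`. -/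
noncomputable def meanSquare (τ ρ A : ℝ) : ENNReal :=
  ∫⁻ Y in Ioi (1 : ℝ), ENNReal.ofReal
    ((logAbsP τ Y - reEi ((1 / 2 - I * τ) * Real.log Y) +
      ρ * (Real.eulerMascheroniConstant + Real.log (Real.log Y)) - Real.log A) ^ 2 / Y)

/-- `log (|u + i/2| |Z(u)|)`. -/
noncomputable def logLam (u : ℝ) : ℝ := Real.log (‖(u : ℂ) + I / 2‖ * ‖hardyZ u‖)

/-- `(1/(4π)) ∫_{-∞}^∞ (log |Λ(τ+t)| + log |Λ(τ-t)| - 2 ρ log |t| - 2 log (A |τ + i/2|))² dt/t²`, in `[0, ∞]`. -/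
noncomputable def criticalLine (τ ρ A : ℝ) : ENNReal :=
  ENNReal.ofReal (4 * Real.pi)⁻¹ * ∫⁻ t : ℝ, ENNReal.ofReal
    ((logLam (τ + t) + logLam (τ - t) - 2 * ρ * Real.log |t| - 2 * Real.log (A * ‖(τ : ℂ) + I / 2‖)) ^ 2 /
      t ^ 2)

/-- `|Z(t)| / |t - τ|^n → A` for `t → τ`: for `A > 0` this says that `τ` is a zero of `Z` of multiplicity `n`
with `|Z^{(n)}(τ)|/n! = A`. -/
def LeadingAt (τ : ℝ) (n : ℕ) (A : ℝ) : Prop :=
  Tendsto (fun t : ℝ => ‖hardyZ t‖ / |t - τ| ^ n) (𝓝[≠] τ) (𝓝 A)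

open Pool.Agent.V11288

theorem Gamma_ne (t : ℝ) : Gamma (1 / 4 + I * t / 2) ≠ 0 := by
  refine Gamma_ne_zero_of_re_pos ?_
  have : (1 / 4 + I * t / 2 : ℂ).re = 1 / 4 := by
    simp [Complex.add_re]
  rw [this]
  norm_num

theorem pi_cpow (t : ℝ) : ‖(Real.pi : ℂ) ^ (-(I * t / 2))‖ = 1 := by
  rw [Complex.norm_cpow_eq_rpow_re_of_pos Real.pi_pos]
  have : (-(I * t / 2) : ℂ).re = 0 := by simp
  rw [this, Real.rpow_zero]

theorem norm_hardyZ (t : ℝ) : ‖hardyZ t‖ = ‖riemannZeta (1 / 2 + I * t)‖ := by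
  unfold hardyZ
  have h1 := norm_pos_iff.2 (Gamma_ne t)
  rw [norm_mul, norm_div, norm_mul, pi_cpow, Complex.norm_real, norm_norm, one_mul, div_self h1.ne',
    one_mul]

/-- the unit factor -/
noncomputable def un (t : ℝ) : ℂ :=
  (Real.pi : ℂ) ^ (-(I * t / 2)) * Gamma (1 / 4 + I * t / 2) / ‖Gamma (1 / 4 + I * t / 2)‖

theorem un_norm (t : ℝ) : ‖un t‖ = 1 := by
  unfold un
  have h1 := norm_pos_iff.2 (Gamma_ne t)
  rw [norm_div, norm_mul, pi_cpow, Complex.norm_real, norm_norm, one_mul, div_self h1.ne']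

theorem un_cont : Continuous un := by
  have hG : Continuous fun t : ℝ => Gamma (1 / 4 + I * t / 2) := by
    rw [continuous_iff_continuousAt]
    intro t
    have h1 : DifferentiableAt ℂ Gamma (1 / 4 + I * t / 2) := by
      refine differentiableAt_Gamma _ fun m hm => ?_
      have h2 := congrArg Complex.re hm
      have : (1 / 4 + I * t / 2 : ℂ).re = 1 / 4 := by
        simp [Complex.add_re]
      rw [this, Complex.neg_re, Complex.natCast_re] at h2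
      have : (0 : ℝ) ≤ m := m.cast_nonneg
      linarith
    exact ContinuousAt.comp (f := fun t : ℝ => (1 / 4 + I * t / 2 : ℂ)) h1.continuousAt (by fun_prop)
  unfold un
  refine Continuous.div (Continuous.mul ?_ hG) (Complex.continuous_ofReal.comp hG.norm) fun t => ?_
  · refine Continuous.const_cpow (by fun_prop) (Or.inl ?_)
    exact_mod_cast Real.pi_ne_zero
  · exact_mod_cast (norm_pos_iff.2 (Gamma_ne t)).ne'

theorem pt_ne (t : ℝ) : (1 / 2 + I * t : ℂ) ≠ 1 := by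
  intro h
  have h2 := congrArg Complex.re h
  simp at h2

/-- the derivative of `Z` at a zero -/
theorem deriv_Z {τ : ℝ} (h : riemannZeta (1 / 2 + I * τ) = 0) :
    HasDerivAt hardyZ (un τ * (I * deriv riemannZeta (1 / 2 + I * τ))) τ := by
  rw [hasDerivAt_iff_tendsto_slope]
  have h1 : HasDerivAt (fun t : ℝ => riemannZeta (1 / 2 + I * t))
      (I * deriv riemannZeta (1 / 2 + I * τ)) τ := by
    have h2 := (differentiableAt_riemannZeta (pt_ne τ)).hasDerivAt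
    have h3 : HasDerivAt (fun t : ℝ => (1 / 2 + I * t : ℂ)) I τ := by
      have := ((Complex.ofRealCLM.hasDerivAt (x := τ)).const_mul I).const_add (1 / 2 : ℂ)
      simpa using this
    have h4 := h2.scomp τ h3
    simpa [smul_eq_mul, Function.comp_def] using h4
  rw [hasDerivAt_iff_tendsto_slope] at h1
  have h5 : Tendsto un (𝓝[≠] τ) (𝓝 (un τ)) := (un_cont.tendsto τ).mono_left nhdsWithin_le_nhds
  refine (h5.mul h1).congr' ?_
  filter_upwards [self_mem_nhdsWithin] with t ht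
  have e1 : hardyZ τ = 0 := by
    unfold hardyZ
    rw [h, mul_zero]
  rw [slope_def_module, slope_def_module, h, e1]
  show un t * ((t - τ)⁻¹ • (riemannZeta (1 / 2 + I * t) - 0)) =
    (t - τ)⁻¹ • (un t * riemannZeta (1 / 2 + I * t) - 0)
  rw [sub_zero, sub_zero, mul_smul_comm]

theorem sw (τ : ℝ) : (1 / 2 + I * τ : ℂ) = ((1 / 2 : ℝ) : ℂ) + τ * I := by
  push_cast
  ring

/-- `1 - s₀` -/
theorem w_ne (τ : ℝ) : ‖(τ : ℂ) + I / 2‖ = ‖(1 / 2 : ℂ) - I * τ‖ ∧ 0 < ‖(τ : ℂ) + I / 2‖ := by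
  have e : (1 / 2 : ℂ) - I * τ = -I * (τ + I / 2) := by
    have := Complex.I_mul_I
    linear_combination (1 / 2 : ℂ) * this
  have h1 : ‖(1 / 2 : ℂ) - I * τ‖ = ‖(τ : ℂ) + I / 2‖ := by
    rw [e, norm_mul, norm_neg, Complex.norm_I, one_mul]
  refine ⟨h1.symm, norm_pos_iff.2 fun h => ?_⟩
  have h2 := congrArg Complex.im h
  simp at h2

theorem uniq {β : Type} {l : Filter β} [l.NeBot] {x f : β → ℝ} (hx : Tendsto x l (𝓝 0))
    (hx0 : ∀ᶠ b in l, 0 < x b) {n m : ℕ} {A B : ℝ} (hA : 0 < A) (hB : 0 < B)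
    (h1 : Tendsto (fun b => f b / x b ^ n) l (𝓝 A)) (h2 : Tendsto (fun b => f b / x b ^ m) l (𝓝 B)) :
    n = m ∧ A = B := by
  have key : ∀ {a b : ℕ} {A' B' : ℝ}, a < b → Tendsto (fun s => f s / x s ^ a) l (𝓝 A') →
      Tendsto (fun s => f s / x s ^ b) l (𝓝 B') → A' = 0 := by
    intro a b A' B' hab ha hb
    obtain ⟨j, hj⟩ := Nat.exists_eq_add_of_lt hab
    have h3 := hb.mul (hx.pow (j + 1))
    rw [zero_pow (by omega), mul_zero] at h3
    have h4 : Tendsto (fun s => f s / x s ^ a) l (𝓝 0) := by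
      refine h3.congr' ?_
      filter_upwards [hx0] with s hs
      rw [hj, show a + j + 1 = a + (j + 1) by omega, pow_add]
      field_simp
    exact tendsto_nhds_unique ha h4
  rcases lt_trichotomy n m with h | h | h
  · exact absurd (key h h1 h2) hA.ne'
  · subst h
    exact ⟨rfl, tendsto_nhds_unique h1 h2⟩
  · exact absurd (key h h2 h1) hB.ne'

theorem dist_real (τ : ℝ) : Tendsto (fun t : ℝ => |t - τ|) (𝓝[≠] τ) (𝓝 0) ∧
    ∀ᶠ t : ℝ in 𝓝[≠] τ, 0 < |t - τ| := by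
  constructor
  · have h1 : Continuous fun t : ℝ => |t - τ| := by fun_prop
    have h2 := h1.tendsto τ
    rw [sub_self, abs_zero] at h2
    exact h2.mono_left nhdsWithin_le_nhds
  · filter_upwards [self_mem_nhdsWithin] with t ht
    exact abs_pos.2 (sub_ne_zero.2 ht)

theorem zeta1_line (u : ℝ) : ‖HS.zeta1 (((1 / 2 : ℝ) : ℂ) + u * I)‖ =
    ‖(u : ℂ) + I / 2‖ * ‖hardyZ u‖ := by
  rw [norm_hardyZ, sw]
  have hne : ((1 / 2 : ℝ) : ℂ) + u * I ≠ 1 := by
    rw [← sw]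
    exact pt_ne u
  unfold HS.zeta1
  rw [Function.update_of_ne hne, norm_mul]
  congr 1
  have e : ((1 / 2 : ℝ) : ℂ) + u * I - 1 = I * (u + I / 2) := by
    have := Complex.I_mul_I
    push_cast
    linear_combination (-1 / 2 : ℂ) * this
  rw [e, norm_mul, Complex.norm_I, one_mul]

/-- from the complex to the real variable -/
theorem lead_of (τ : ℝ) (n : ℕ) {B : ℝ}
    (h : Tendsto (fun s : ℂ => ‖HS.zeta1 s‖ / ‖s - (((1 / 2 : ℝ) : ℂ) + τ * I)‖ ^ n)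
      (𝓝[≠] (((1 / 2 : ℝ) : ℂ) + τ * I)) (𝓝 B)) : LeadingAt τ n (B / ‖(τ : ℂ) + I / 2‖) := by
  have h1 : Tendsto (fun t : ℝ => ((1 / 2 : ℝ) : ℂ) + t * I) (𝓝[≠] τ)
      (𝓝[≠] (((1 / 2 : ℝ) : ℂ) + τ * I)) := by
    refine tendsto_nhdsWithin_of_tendsto_nhds_of_eventually_within _ ?_ ?_
    · have h2 : Continuous fun t : ℝ => ((1 / 2 : ℝ) : ℂ) + t * I := by fun_prop
      exact (h2.tendsto τ).mono_left nhdsWithin_le_nhds
    · filter_upwards [self_mem_nhdsWithin] with t ht h3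
      apply ht
      have h4 := congrArg Complex.im h3
      simpa using h4
  have h2 := h.comp h1
  have h3 : Tendsto (fun t : ℝ => ‖(t : ℂ) + I / 2‖) (𝓝[≠] τ) (𝓝 ‖(τ : ℂ) + I / 2‖) := by
    have h4 : Continuous fun t : ℝ => ‖(t : ℂ) + I / 2‖ := by fun_prop
    exact (h4.tendsto τ).mono_left nhdsWithin_le_nhds
  have h4 := h2.div h3 (w_ne τ).2.ne'
  refine h4.congr fun t => ?_
  simp only [Pi.div_apply, Function.comp_apply]
  have h5 := (w_ne t).2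
  rw [zeta1_line]
  have e : ((1 / 2 : ℝ) : ℂ) + t * I - (((1 / 2 : ℝ) : ℂ) + τ * I) = ((t - τ : ℝ) : ℂ) * I := by
    push_cast
    ring
  rw [e, norm_mul, Complex.norm_I, mul_one, Complex.norm_real, Real.norm_eq_abs]
  generalize ‖(t : ℂ) + I / 2‖ = x at h5 ⊢
  field_simp

/-- the leading terms -/
theorem lead_iff {M : ℝ → ℝ → ℝ → ENNReal} (H : HS.Concl (fun v : Nat.Primes => (v : ℕ)) (fun _ _ => 1) 1 1
    HS.zeta1 (1 / 2) M) (τ : ℝ) (n : ℕ) {A : ℝ} (hA : 0 < A) : LeadingAt τ n A ↔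
    Tendsto (fun s : ℂ => ‖HS.zeta1 s‖ / ‖s - (((1 / 2 : ℝ) : ℂ) + τ * I)‖ ^ n)
      (𝓝[≠] (((1 / 2 : ℝ) : ℂ) + τ * I)) (𝓝 (A * ‖(τ : ℂ) + I / 2‖)) := by
  have hw := (w_ne τ).2
  constructor
  · intro h
    obtain ⟨m, B, hB, hm⟩ := H.lead τ
    obtain ⟨d1, d2⟩ := dist_real τ
    obtain ⟨e1, e2⟩ := uniq d1 d2 hA (by positivity) h (lead_of τ m hm)
    rw [e1, e2]
    have : B / ‖(τ : ℂ) + I / 2‖ * ‖(τ : ℂ) + I / 2‖ = B := div_mul_cancel₀ _ hw.ne'
    rw [this]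
    exact hm
  · intro h
    have h1 := lead_of τ n h
    have : A * ‖(τ : ℂ) + I / 2‖ / ‖(τ : ℂ) + I / 2‖ = A := mul_div_cancel_right₀ _ hw.ne'
    rwa [this] at h1

theorem rh_iff : RH ↔ ∀ s : ℂ, 1 / 2 < s.re → HS.zeta1 s ≠ 0 := by
  unfold RH HS.zeta1
  refine forall_congr' fun s => imp_congr_right fun _ => ?_
  by_cases h : s = 1
  · rw [h, Function.update_self]
    simp
  · rw [Function.update_of_ne h]
    constructor
    · intro h1
      exact mul_ne_zero (sub_ne_zero.2 h) (h1 h)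
    · intro h1 _
      exact right_ne_zero_of_mul h1

theorem hardyZ_cont : Continuous hardyZ := by
  have h1 : Continuous fun t : ℝ => riemannZeta (1 / 2 + I * t) := by
    rw [continuous_iff_continuousAt]
    intro t
    exact ContinuousAt.comp (f := fun t : ℝ => (1 / 2 + I * t : ℂ))
      (differentiableAt_riemannZeta (pt_ne t)).continuousAt (by fun_prop)
  exact un_cont.mul h1

theorem zero_iff (τ : ℝ) : hardyZ τ = 0 ↔ riemannZeta (1 / 2 + I * τ) = 0 := by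
  rw [← norm_eq_zero, norm_hardyZ, norm_eq_zero]

/-- simple zeros -/
theorem lead_one (τ : ℝ) {A : ℝ} : LeadingAt τ 1 A ↔ hardyZ τ = 0 ∧ ‖deriv hardyZ τ‖ = A := by
  have key : hardyZ τ = 0 → LeadingAt τ 1 ‖deriv hardyZ τ‖ := by
    intro h
    have h1 := (deriv_Z ((zero_iff τ).1 h)).differentiableAt.hasDerivAt
    rw [hasDerivAt_iff_tendsto_slope] at h1
    refine h1.norm.congr' ?_
    filter_upwards [self_mem_nhdsWithin] with t ht
    rw [slope_def_module, h, sub_zero, norm_smul, norm_inv, Real.norm_eq_abs, pow_one]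
    ring
  constructor
  · intro h
    have h0 : hardyZ τ = 0 := by
      have h1 : Tendsto (fun t : ℝ => ‖hardyZ t‖ / |t - τ| ^ 1 * |t - τ|) (𝓝[≠] τ) (𝓝 (A * 0)) :=
        Tendsto.mul h (dist_real τ).1
      have h2 : Tendsto (fun t : ℝ => ‖hardyZ t‖) (𝓝[≠] τ) (𝓝 (A * 0)) := by
        refine h1.congr' ?_
        filter_upwards [(dist_real τ).2] with t ht
        rw [pow_one]
        field_simp
      have h3 : Tendsto (fun t : ℝ => ‖hardyZ t‖) (𝓝[≠] τ) (𝓝 ‖hardyZ τ‖) :=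
        (hardyZ_cont.norm.tendsto τ).mono_left nhdsWithin_le_nhds
      have h4 := tendsto_nhds_unique h3 h2
      rw [mul_zero, norm_eq_zero] at h4
      exact h4
    exact ⟨h0, tendsto_nhds_unique (key h0) h⟩
  · rintro ⟨h0, rfl⟩
    exact key h0

theorem lead_zero (τ : ℝ) {A : ℝ} : LeadingAt τ 0 A ↔ ‖hardyZ τ‖ = A := by
  have h3 : Tendsto (fun t : ℝ => ‖hardyZ t‖ / |t - τ| ^ 0) (𝓝[≠] τ) (𝓝 ‖hardyZ τ‖) := by
    simp only [pow_zero, div_one]
    exact (hardyZ_cont.norm.tendsto τ).mono_left nhdsWithin_le_nhds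
  constructor
  · intro h
    exact tendsto_nhds_unique h3 h
  · rintro rfl
    exact h3

/-- the terms of the sum -/
theorem term_eq (v : Nat.Primes) (j : ℕ) (τ : ℝ) :
    ((1 : ℂ) / ((v : ℕ) : ℂ) ^ (((j + 1 : ℕ) : ℂ) * (((1 / 2 : ℝ) : ℂ) + τ * I))).re / ((j : ℝ) + 1) =
      Real.cos (((j : ℝ) + 1) * τ * Real.log ((v : ℕ) : ℝ)) /
        (((j : ℝ) + 1) * ((v : ℕ) : ℝ) ^ (((j : ℝ) + 1) / 2)) := by
  have hp : (0 : ℝ) < ((v : ℕ) : ℝ) := by exact_mod_cast v.2.pos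
  have hpc : ((v : ℕ) : ℂ) ≠ 0 := by exact_mod_cast hp.ne'
  have hlog : Complex.log ((v : ℕ) : ℂ) = (Real.log ((v : ℕ) : ℝ) : ℂ) := by
    rw [Complex.ofReal_log hp.le]
    push_cast
    rfl
  rw [Complex.cpow_def_of_ne_zero hpc, hlog, one_div, ← Complex.exp_neg, Complex.exp_re]
  have e1 : (-((Real.log ((v : ℕ) : ℝ) : ℂ) * (((j + 1 : ℕ) : ℂ) * (((1 / 2 : ℝ) : ℂ) + τ * I)))) =
      ((-(Real.log ((v : ℕ) : ℝ) * (((j : ℝ) + 1) / 2)) : ℝ) : ℂ) +
        ((-(((j : ℝ) + 1) * τ * Real.log ((v : ℕ) : ℝ)) : ℝ) : ℂ) * I := by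
    push_cast
    ring
  rw [e1, Complex.add_re, Complex.add_im, Complex.ofReal_re, Complex.ofReal_im, Complex.re_ofReal_mul,
    Complex.im_ofReal_mul, Complex.I_re, Complex.I_im, mul_zero, add_zero, mul_one, zero_add,
    Real.cos_neg, Real.exp_neg, Real.rpow_def_of_pos hp]
  have := Real.exp_pos (Real.log ((v : ℕ) : ℝ) * (((j : ℝ) + 1) / 2))
  field_simp

/-- **Simple zeros of Hardy's function and the prime numbers.** -/
theorem result :
    (∀ τ ρ A : ℝ, 0 < A → ((RH ∧ ∃ n : ℕ, ρ = n ∧ LeadingAt τ n A) ↔ meanSquare τ ρ A < ⊤)) ∧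
    (∀ τ ρ A : ℝ, 0 < A → meanSquare τ ρ A < ⊤ → meanSquare τ ρ A = criticalLine τ ρ A) ∧
    (∀ τ A : ℝ, 0 < A → ((RH ∧ hardyZ τ = 0 ∧ ‖deriv hardyZ τ‖ = A) ↔ meanSquare τ 1 A < ⊤)) ∧
    ((RH ∧ ∀ t : ℝ, hardyZ t = 0 → deriv hardyZ t ≠ 0) ↔
      ∀ τ : ℝ, ∃ A : ℝ, 0 < A ∧ (meanSquare τ 0 A < ⊤ ∨ meanSquare τ 1 A < ⊤)) := by
  obtain ⟨M, H⟩ := HS.half_zeta.crit' (σ := 1 / 2) le_rfl
  have hms : ∀ τ ρ A : ℝ, 0 < A → meanSquare τ ρ A = M τ ρ (Real.log (A * ‖(τ : ℂ) + I / 2‖)) := by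
    intro τ ρ A hA
    have hw := (w_ne τ).2
    rw [H.eq]
    unfold meanSquare logAbsP reEi
    refine setLIntegral_congr_fun measurableSet_Ioi fun Y hY => ?_
    have hY1 : (1 : ℝ) < Y := hY
    have hl : 0 < Real.log Y := Real.log_pos hY1
    simp only [term_eq]
    congr 2
    have e1 : (1 : ℂ) - (((1 / 2 : ℝ) : ℂ) + τ * I) = 1 / 2 - I * τ := by
      push_cast
      ring
    rw [e1, norm_mul, ← (w_ne τ).1, Complex.norm_real, Real.norm_of_nonneg hl.le,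
      Real.log_mul hw.ne' hl.ne', Real.log_mul hA.ne' hw.ne']
    unfold HS.Ein
    push_cast
    ring
  have h1 : ∀ τ ρ A : ℝ, 0 < A → ((RH ∧ ∃ n : ℕ, ρ = n ∧ LeadingAt τ n A) ↔ meanSquare τ ρ A < ⊤) := by
    intro τ ρ A hA
    have hw := (w_ne τ).2
    rw [hms τ ρ A hA, ← H.crit τ ρ (by positivity), rh_iff]
    exact and_congr_right fun _ => exists_congr fun n => and_congr_right fun _ => lead_iff H τ n hA
  have h3 : ∀ τ A : ℝ, 0 < A →
      ((RH ∧ hardyZ τ = 0 ∧ ‖deriv hardyZ τ‖ = A) ↔ meanSquare τ 1 A < ⊤) := by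
    intro τ A hA
    rw [← h1 τ 1 A hA, ← lead_one]
    refine and_congr_right fun _ => ⟨fun h => ⟨1, by norm_num, h⟩, ?_⟩
    rintro ⟨n, hn, h⟩
    have : n = 1 := by exact_mod_cast hn.symm
    rwa [this] at h
  have h0 : ∀ τ A : ℝ, 0 < A → ((RH ∧ ‖hardyZ τ‖ = A) ↔ meanSquare τ 0 A < ⊤) := by
    intro τ A hA
    rw [← h1 τ 0 A hA, ← lead_zero]
    refine and_congr_right fun _ => ⟨fun h => ⟨0, by norm_num, h⟩, ?_⟩
    rintro ⟨n, hn, h⟩
    have : n = 0 := by exact_mod_cast hn.symm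
    rwa [this] at h
  refine ⟨h1, fun τ ρ A hA h => ?_, h3, ?_, ?_⟩
  · have hw := (w_ne τ).2
    rw [hms τ ρ A hA] at h ⊢
    rw [H.line τ ρ _ h]
    unfold criticalLine logLam
    simp only [← zeta1_line]
  · rintro ⟨hR, hs⟩ τ
    by_cases hz : hardyZ τ = 0
    · exact ⟨‖deriv hardyZ τ‖, norm_pos_iff.2 (hs τ hz), Or.inr
        ((h3 τ _ (norm_pos_iff.2 (hs τ hz))).1 ⟨hR, hz, rfl⟩)⟩
    · exact ⟨‖hardyZ τ‖, norm_pos_iff.2 hz, Or.inl ((h0 τ _ (norm_pos_iff.2 hz)).1 ⟨hR, rfl⟩)⟩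
  · intro h
    refine ⟨?_, fun t ht => ?_⟩
    · obtain ⟨A, hA, h4⟩ := h 0
      rcases h4 with h4 | h4
      · exact ((h0 0 A hA).2 h4).1
      · exact ((h3 0 A hA).2 h4).1
    · obtain ⟨A, hA, h4⟩ := h t
      rcases h4 with h4 | h4
      · have h5 := ((h0 t A hA).2 h4).2
        rw [ht, norm_zero] at h5
        exact absurd h5 hA.ne
      · have h5 := ((h3 t A hA).2 h4).2.2
        intro h6
        rw [h6, norm_zero] at h5
        exact absurd h5 hA.ne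

end Pool.Agent.Results.MP_6bc78b_nt.SimpleZerosAndPrimes
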