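import Mathlib
import Pool.Agent.Results.MP_6bc78b_nt.IsolatedSimpleZeros
import Pool.Agent.V11270.HP.RealFK

set_option autoImplicit false

/-!
# The theorem of Szemeredi for the simple zeros of Hardy's function

For every `k` and `κ > 0` there are `r` and `c > 0` such that in every short interval `(T, T + H]`
with `T ^ (4/7) ≤ H ≤ T` and `T` large the following holds: whatever the `r` real shift vectors
`α i` in `ℝ ^ k`, of total length at most `H` in every coordinate, there is a nonempty set `I` of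
indices such that for at least `c N(T, T + H)` isolated simple zeros `t` of `Z`, all the points
`t + ∑ i ∈ I, α i j` have distance at most `κ / log T`
from isolated simple zeros of `Z` in `(T, T + H]`.
-/

open Filter Topology Complex

namespace Pool.Agent.Results.MP_6bc78b_nt.SzemerediSimpleZeros

/-- the phase `exp (i ϑ(t))`, with `ϑ(t) = arg Γ(1/4 + i t / 2) - (t / 2) log π` -/
noncomputable def phase (t : ℝ) : ℂ :=
  Gamma (1 / 4 + I * t / 2) / ‖Gamma (1 / 4 + I * t / 2)‖ * cexp (-(I * (t / 2) * Real.log Real.pi))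

/-- Hardy's function `Z(t) = exp (i ϑ(t)) ζ(1/2 + i t)` -/
noncomputable def Z (t : ℝ) : ℂ := phase t * riemannZeta (1 / 2 + I * t)

/-- the simple real zeros `t` of `Z` in `(T₁, T₂]` for which `1/2 + it` has distance at least `d`
from all other zeros of zeta in the open critical strip -/
def isolated (T₁ T₂ d : ℝ) : Set ℝ :=
  {t : ℝ | T₁ < t ∧ t ≤ T₂ ∧ Z t = 0 ∧ deriv Z t ≠ 0 ∧
    ∀ s : ℂ, riemannZeta s = 0 → 0 < s.re → s.re < 1 → s ≠ 1 / 2 + I * t →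
      d ≤ ‖s - (1 / 2 + I * t)‖}

/-- the nontrivial zeros of zeta with ordinate in `(T₁, T₂]` -/
def zeros (T₁ T₂ : ℝ) : Set ℂ :=
  {s : ℂ | riemannZeta s = 0 ∧ 0 < s.re ∧ s.re < 1 ∧ T₁ < s.im ∧ s.im ≤ T₂}

/-- the number of nontrivial zeros with ordinate in `(T₁, T₂]`, counted with multiplicity -/
noncomputable def N (T₁ T₂ : ℝ) : ℕ := ∑ᶠ s ∈ zeros T₁ T₂, analyticOrderNatAt riemannZeta s

/-- the zeros `t` among the isolated simple zeros in `(T₁, T₂]` for which every translate `t + σ j` has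
distance at most `e` from an isolated simple zero in `(T₁, T₂]` -/
def patterns {k : ℕ} (T₁ T₂ d e : ℝ) (σ : Fin k → ℝ) : Set ℝ :=
  {t : ℝ | t ∈ isolated T₁ T₂ d ∧ ∀ j, ∃ u ∈ isolated T₁ T₂ d, |u - (t + σ j)| ≤ e}

lemma isolated_eq (T₁ T₂ d : ℝ) : isolated T₁ T₂ d = IsolatedSimpleZeros.isolated T₁ T₂ d := rfl

lemma N_eq (T₁ T₂ : ℝ) : N T₁ T₂ = H370.NN riemannZeta T₁ T₂ := IsolatedSimpleZeros.N_eq T₁ T₂

/-- two isolated zeros are far apart -/
lemma far {T₁ T₂ d t u : ℝ} (ht : t ∈ isolated T₁ T₂ d) (hu : u ∈ isolated T₁ T₂ d) (h : t ≠ u) :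
    d ≤ |u - t| := by
  have h1 := ht.2.2.2.2 (1 / 2 + I * u) ((IsolatedSimpleZeros.Z_zero_iff u).1 hu.2.2.1) (by simp)
    (by simp; norm_num) (fun h2 => h (by simpa using (congrArg Complex.im h2).symm))
  have h2 : (1 / 2 + I * (u : ℂ)) - (1 / 2 + I * t) = I * ((u - t : ℝ) : ℂ) := by
    push_cast
    ring
  rw [h2, norm_mul, Complex.norm_I, one_mul, Complex.norm_real, Real.norm_eq_abs] at h1
  exact h1

/-- counting zeros in short intervals -/
lemma count : ∃ T₀ : ℝ, 10 ≤ T₀ ∧ ∀ T : ℝ, T₀ ≤ T → ∀ H : ℝ, T ^ (4 / 7 : ℝ) ≤ H → H ≤ T →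
    3 ≤ H ∧ H * Real.log T / 7 ≤ (N T (T + H) : ℝ) ∧ (N T (T + H) : ℝ) ≤ H * Real.log T := by
  obtain ⟨C, hC, hc⟩ := H295SI.countShort riemannZeta H370.good_zeta
  have h1 : ∀ᶠ T : ℝ in atTop, 200 * C + 3 ≤ Real.log T :=
    Real.tendsto_log_atTop.eventually_ge_atTop _
  have h2 : ∀ᶠ T : ℝ in atTop, Real.log T ≤ (1 / (200 * C + 3)) * T ^ (4 / 7 : ℝ) := by
    have h3 := (isLittleO_log_rpow_atTop (r := 4 / 7) (by norm_num)).bound
      (c := 1 / (200 * C + 3)) (by positivity)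
    filter_upwards [h3, eventually_ge_atTop (1 : ℝ)] with T hT hT1
    have h4 : (0 : ℝ) ≤ T ^ (4 / 7 : ℝ) := by positivity
    rw [Real.norm_eq_abs, Real.norm_eq_abs, abs_of_nonneg h4,
      abs_of_nonneg (Real.log_nonneg hT1)] at hT
    exact hT
  obtain ⟨T₁, hT₁⟩ := eventually_atTop.1 (h1.and (h2.and (eventually_ge_atTop (10 : ℝ))))
  refine ⟨max T₁ 10, le_max_right _ _, fun T hT H hH1 hH2 => ?_⟩
  obtain ⟨a1, a2, a3⟩ := hT₁ T ((le_max_left _ _).trans hT)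
  have hT10 : 10 ≤ T := (le_max_right _ _).trans hT
  have hL : 0 < Real.log T := by linarith
  have b1 : (200 * C + 3) * Real.log T ≤ H := by
    refine le_trans ?_ hH1
    have := mul_le_mul_of_nonneg_left a2 (show (0 : ℝ) ≤ 200 * C + 3 by positivity)
    rw [← mul_assoc, mul_one_div_cancel (by positivity), one_mul] at this
    exact this
  have hH3 : 3 ≤ H := by nlinarith
  have hH0 : 0 < H := by linarith
  obtain ⟨c1, -⟩ := hc T hT10 H hH3 hH2 T (T + H) le_rfl (by linarith) (by linarith) le_rfl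
  rw [abs_le] at c1
  rw [N_eq]
  have d1 : C * H ≤ H * Real.log T / 200 := by nlinarith
  have d2 : C * (Real.log T) ^ 2 ≤ H * Real.log T / 200 := by nlinarith
  have hpi := Real.pi_gt_d2
  have hpi2 := Real.pi_lt_d2
  have e0 : 0 < H * Real.log T := by positivity
  have e1 : H * Real.log T / (2 * Real.pi) ≤ H * Real.log T / 6 :=
    div_le_div_of_nonneg_left e0.le (by norm_num) (by linarith)
  have e2 : H * Real.log T / 6.3 ≤ H * Real.log T / (2 * Real.pi) :=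
    div_le_div_of_nonneg_left e0.le (by positivity) (by linarith)
  refine ⟨hH3, ?_, ?_⟩
  · have := c1.1
    have e3 : H * Real.log T / 7 + 2 * (H * Real.log T / 200) ≤ H * Real.log T / 6.3 := by
      have e4 : (1 / 7 + 2 / 200 : ℝ) ≤ 1 / 6.3 := by norm_num
      have e5 := mul_le_mul_of_nonneg_right e4 e0.le
      have e6 : H * Real.log T / 7 + 2 * (H * Real.log T / 200) =
        (1 / 7 + 2 / 200) * (H * Real.log T) := by ring
      have e7 : H * Real.log T / 6.3 = 1 / 6.3 * (H * Real.log T) := by ring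
      rw [e6, e7]
      exact e5
    linarith
  · have := c1.2
    linarith

/-- many isolated simple zeros -/
lemma dens : ∃ T₀ : ℝ, ∀ T : ℝ, T₀ ≤ T → ∀ H : ℝ, T ^ (4 / 7 : ℝ) ≤ H → H ≤ T →
    (N T (T + H) : ℝ) / 60 ≤ ((isolated T (T + H) (1 / 50 / Real.log T)).ncard : ℝ) := by
  obtain ⟨h1, -, h3, -⟩ := IsolatedSimpleZeros.result
  obtain ⟨T₀, hT₀⟩ := h1 (4 / 7) (1 / 50) (1 / 100) (by norm_num) (by norm_num) (by norm_num)
    (by norm_num) (by norm_num)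
  refine ⟨T₀, fun T hT H hH1 hH2 => ?_⟩
  refine le_trans ?_ (hT₀ T hT H hH1 hH2)
  have h4 := h3 (4 / 7) (by norm_num) (by norm_num)
  have h5 : (1 / 60 : ℝ) ≤ 2 - IsolatedSimpleZeros.c (4 / 7) - 74 * (1 / 50) ^ 2 - 1 / 100 := by
    norm_num at h4 ⊢
    linarith
  have h6 := mul_le_mul_of_nonneg_right h5 (Nat.cast_nonneg (α := ℝ) (IsolatedSimpleZeros.N T (T + H)))
  have h7 : (N T (T + H) : ℝ) = (IsolatedSimpleZeros.N T (T + H) : ℝ) := rfl
  rw [h7]
  linarith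

open MeasureTheory in
/-- the main theorem -/
theorem main (k : ℕ) (κ : ℝ) (hκ : 0 < κ) : ∃ (r : ℕ) (c T₀ : ℝ), 0 < c ∧ 10 ≤ T₀ ∧
    ∀ T : ℝ, T₀ ≤ T → ∀ H : ℝ, T ^ (4 / 7 : ℝ) ≤ H → H ≤ T →
      ∀ α : Fin r → Fin k → ℝ, (∀ j, ∑ i, |α i j| ≤ H) →
        ∃ J : Finset (Fin r), J.Nonempty ∧ c * (N T (T + H) : ℝ) ≤
          ((patterns T (T + H) (1 / 50 / Real.log T) (κ / Real.log T)
            (fun j => ∑ i ∈ J, α i j)).ncard : ℝ) := by
  classical
  obtain ⟨κ', hκ'⟩ : ∃ κ' : ℝ, κ' = min κ (1 / 50) := ⟨_, rfl⟩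
  have hκ0 : 0 < κ' := by rw [hκ']; exact lt_min hκ (by norm_num)
  have hκ1 : κ' ≤ κ := by rw [hκ']; exact min_le_left _ _
  have hκ2 : κ' ≤ 1 / 50 := by rw [hκ']; exact min_le_right _ _
  obtain ⟨r, η, hη, hFK⟩ := V11270.HP.real_line k (κ' / 840) (by positivity)
  obtain ⟨T₁, hT₁, hcount⟩ := count
  obtain ⟨T₂, hdens⟩ := dens
  refine ⟨r, 2 * η / κ', max T₁ T₂, by positivity, hT₁.trans (le_max_left _ _), ?_⟩
  intro T hT H hH1 hH2 α hα
  have hTT1 : T₁ ≤ T := (le_max_left _ _).trans hT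
  obtain ⟨hH3, hN1, hN2⟩ := hcount T hTT1 H hH1 hH2
  have hd := hdens T ((le_max_right _ _).trans hT) H hH1 hH2
  have hT10 : 10 ≤ T := hT₁.trans hTT1
  have hL1 : 1 ≤ Real.log T := by
    rw [Real.le_log_iff_exp_le (by linarith)]
    linarith [Real.exp_one_lt_d9]
  have hL0 : 0 < Real.log T := by linarith
  obtain ⟨d, hd0⟩ : ∃ d : ℝ, d = 1 / 50 / Real.log T := ⟨_, rfl⟩
  rw [← hd0] at hd ⊢
  obtain ⟨ρ, hρ⟩ : ∃ ρ : ℝ, ρ = κ' / (2 * Real.log T) := ⟨_, rfl⟩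
  have hρ0 : 0 < ρ := by rw [hρ]; positivity
  have hρ2 : 2 * ρ = κ' / Real.log T := by
    rw [hρ]
    field_simp
  have hρd : 2 * ρ ≤ d := by
    rw [hρ2, hd0]
    exact div_le_div_of_nonneg_right hκ2 hL0.le
  have hρ1 : ρ ≤ 1 := by
    have h1 : κ' / Real.log T ≤ κ' := div_le_self hκ0.le hL1
    linarith
  have hfin : (isolated T (T + H) d).Finite :=
    IsolatedSimpleZeros.isolated_finite T (T + H) d (by linarith)
  obtain ⟨S, hS⟩ : ∃ S : Finset ℝ, S = hfin.toFinset := ⟨_, rfl⟩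
  have hmem : ∀ t, t ∈ S ↔ t ∈ isolated T (T + H) d := by
    intro t
    rw [hS, Set.Finite.mem_toFinset]
  have hcard : ((isolated T (T + H) d).ncard : ℝ) = (S.card : ℝ) := by
    rw [Set.ncard_eq_toFinset_card _ hfin, hS]
  rw [hcard] at hd
  obtain ⟨A, hA⟩ : ∃ A : Set ℝ, A = ⋃ t ∈ S, Set.Ioo (t - ρ) (t + ρ) := ⟨_, rfl⟩
  have hAm : MeasurableSet A := by
    rw [hA]
    exact Finset.measurableSet_biUnion _ fun t _ => measurableSet_Ioo
  have hAs : A ⊆ Set.Icc (T - 1) (T - 1 + 2 * H) := by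
    intro x hx
    rw [hA, Set.mem_iUnion₂] at hx
    obtain ⟨t, ht, hx1⟩ := hx
    have ht' := (hmem t).1 ht
    have h1 := ht'.1
    have h2 := ht'.2.1
    constructor
    · linarith [hx1.1]
    · linarith [hx1.2]
  have hIoo : ∀ t : ℝ, volume (Set.Ioo (t - ρ) (t + ρ)) = ENNReal.ofReal (2 * ρ) := by
    intro t
    rw [Real.volume_Ioo]
    congr 1
    ring
  have hAv : volume A = ENNReal.ofReal (S.card * (2 * ρ)) := by
    rw [hA, measure_biUnion_finset ?_ fun t _ => measurableSet_Ioo]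
    · simp_rw [hIoo]
      rw [Finset.sum_const, nsmul_eq_mul, ENNReal.ofReal_mul (Nat.cast_nonneg _),
        ENNReal.ofReal_natCast]
    · intro t ht u hu htu
      rw [Finset.mem_coe] at ht hu
      have h1 := far ((hmem t).1 ht) ((hmem u).1 hu) htu
      rw [Function.onFun, Set.disjoint_left]
      intro x hx1 hx2
      have h2 : |u - t| < 2 * ρ := by
        rw [abs_lt]
        constructor <;> linarith [hx1.1, hx1.2, hx2.1, hx2.2]
      linarith
  have hAd : ENNReal.ofReal (κ' / 840 * (2 * H)) ≤ volume A := by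
    rw [hAv]
    refine ENNReal.ofReal_le_ofReal ?_
    have h1 : H * Real.log T / 420 ≤ S.card := by linarith
    have h2 := mul_le_mul_of_nonneg_right h1 (show 0 ≤ 2 * ρ by linarith)
    refine le_trans (le_of_eq ?_) h2
    rw [hρ2]
    field_simp
    norm_num
  obtain ⟨J, hJ, hJv⟩ := hFK (2 * H) (by linarith) (T - 1) A hAm hAs hAd α
    (fun j => (hα j).trans (by linarith))
  refine ⟨J, hJ, ?_⟩
  obtain ⟨P, hP⟩ : ∃ P : Finset ℝ, P = S.filter fun t => t ∈ patterns T (T + H) d (κ / Real.log T)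
    (fun j => ∑ i ∈ J, α i j) := ⟨_, rfl⟩
  have hPc : (patterns T (T + H) d (κ / Real.log T) (fun j => ∑ i ∈ J, α i j)).ncard = P.card := by
    rw [← Set.ncard_coe_finset]
    congr 1
    ext t
    rw [hP, Finset.mem_coe, Finset.mem_filter, hmem]
    exact ⟨fun h => ⟨h.1, h⟩, fun h => h.2⟩
  rw [hPc]
  have hsub : {x | x ∈ A ∧ ∀ j, x + ∑ i ∈ J, α i j ∈ A} ⊆ ⋃ t ∈ P, Set.Ioo (t - ρ) (t + ρ) := by
    rintro x ⟨hx, hxj⟩
    rw [hA, Set.mem_iUnion₂] at hx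
    obtain ⟨t, ht, hx1⟩ := hx
    rw [Set.mem_iUnion₂]
    refine ⟨t, ?_, hx1⟩
    rw [hP, Finset.mem_filter]
    refine ⟨ht, (hmem t).1 ht, fun j => ?_⟩
    have h1 := hxj j
    rw [hA, Set.mem_iUnion₂] at h1
    obtain ⟨u, hu, hx2⟩ := h1
    refine ⟨u, (hmem u).1 hu, ?_⟩
    have h2 : 2 * ρ ≤ κ / Real.log T := by
      rw [hρ2]
      exact div_le_div_of_nonneg_right hκ1 hL0.le
    refine le_trans ?_ h2
    rw [abs_le]
    constructor <;> linarith [hx1.1, hx1.2, hx2.1, hx2.2]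
  have hfinal : ENNReal.ofReal (η * (2 * H)) ≤ ENNReal.ofReal (P.card * (2 * ρ)) := by
    refine hJv.trans ((measure_mono hsub).trans ((measure_biUnion_finset_le _ _).trans ?_))
    simp_rw [hIoo]
    rw [Finset.sum_const, nsmul_eq_mul, ENNReal.ofReal_mul (Nat.cast_nonneg _),
      ENNReal.ofReal_natCast]
  rw [ENNReal.ofReal_le_ofReal_iff (by positivity), hρ2] at hfinal
  have h3 : η * (2 * H) * Real.log T ≤ P.card * κ' := by
    have h4 := mul_le_mul_of_nonneg_right hfinal hL0.le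
    refine h4.trans (le_of_eq ?_)
    field_simp
  have h5 : 2 * η / κ' * (N T (T + H) : ℝ) ≤ 2 * η / κ' * (H * Real.log T) :=
    mul_le_mul_of_nonneg_left hN2 (by positivity)
  refine h5.trans ?_
  rw [div_mul_eq_mul_div, div_le_iff₀ hκ0]
  linarith

/-- **The theorem of Szemeredi for the simple zeros of Hardy's function.** -/
theorem result :
    -- patterns of shifts
    (∀ (k : ℕ) (κ : ℝ), 0 < κ → ∃ (r : ℕ) (c T₀ : ℝ), 0 < c ∧
      ∀ T : ℝ, T₀ ≤ T → ∀ H : ℝ, T ^ (4 / 7 : ℝ) ≤ H → H ≤ T →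
        ∀ α : Fin r → Fin k → ℝ, (∀ j, ∑ i, |α i j| ≤ H) →
          ∃ J : Finset (Fin r), J.Nonempty ∧ c * (N T (T + H) : ℝ) ≤
            ((patterns T (T + H) (1 / 50 / Real.log T) (κ / Real.log T)
              (fun j => ∑ i ∈ J, α i j)).ncard : ℝ)) ∧
    -- homothetic copies of a finite set of reals, with ratio in any prescribed set of sums
    (∀ (k : ℕ) (κ : ℝ), 0 < κ → ∃ (r : ℕ) (c T₀ : ℝ), 0 < c ∧
      ∀ T : ℝ, T₀ ≤ T → ∀ H : ℝ, T ^ (4 / 7 : ℝ) ≤ H → H ≤ T →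
        ∀ (β : Fin k → ℝ) (m : Fin r → ℕ), (∀ j, (∑ i, (m i : ℝ)) * |β j| ≤ H) →
          ∃ J : Finset (Fin r), J.Nonempty ∧ c * (N T (T + H) : ℝ) ≤
            ((patterns T (T + H) (1 / 50 / Real.log T) (κ / Real.log T)
              (fun j => ((∑ i ∈ J, m i : ℕ) : ℝ) * β j)).ncard : ℝ)) ∧
    -- arithmetic progressions of zeros
    (∀ (k : ℕ) (κ : ℝ), 0 < κ → ∃ (r : ℕ) (c T₀ : ℝ), 0 < c ∧
      ∀ T : ℝ, T₀ ≤ T → ∀ H : ℝ, T ^ (4 / 7 : ℝ) ≤ H → H ≤ T →
        ∀ β : ℝ, k * r * |β| ≤ H →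
          ∃ n : ℕ, 1 ≤ n ∧ n ≤ r ∧ c * (N T (T + H) : ℝ) ≤
            ((patterns T (T + H) (1 / 50 / Real.log T) (κ / Real.log T)
              (fun j : Fin k => ((j : ℕ) + 1) * (n * β))).ncard : ℝ)) := by
  refine ⟨fun k κ hκ => ?_, fun k κ hκ => ?_, fun k κ hκ => ?_⟩
  · obtain ⟨r, c, T₀, hc, -, h⟩ := main k κ hκ
    exact ⟨r, c, T₀, hc, h⟩
  · obtain ⟨r, c, T₀, hc, -, h⟩ := main k κ hκ
    refine ⟨r, c, T₀, hc, fun T hT H hH1 hH2 β m hm => ?_⟩
    obtain ⟨J, hJ, hJc⟩ := h T hT H hH1 hH2 (fun i j => m i * β j) (fun j => by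
      refine le_trans (le_of_eq ?_) (hm j)
      rw [Finset.sum_mul]
      refine Finset.sum_congr rfl fun i _ => ?_
      rw [abs_mul, Nat.abs_cast])
    refine ⟨J, hJ, ?_⟩
    have h1 : (fun j => ((∑ i ∈ J, m i : ℕ) : ℝ) * β j) = fun j => ∑ i ∈ J, (m i : ℝ) * β j := by
      funext j
      push_cast
      rw [Finset.sum_mul]
    rw [h1]
    exact hJc
  · obtain ⟨r, c, T₀, hc, hT₀, h⟩ := main k κ hκ
    refine ⟨r, c, T₀, hc, fun T hT H hH1 hH2 β hβ => ?_⟩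
    obtain ⟨J, hJ, hJc⟩ := h T hT H hH1 hH2 (fun _ j => ((j : ℕ) + 1) * β) (fun j => by
      refine le_trans ?_ hβ
      rw [Finset.sum_const, Finset.card_univ, Fintype.card_fin, nsmul_eq_mul, abs_mul,
        abs_of_pos (show (0 : ℝ) < (j : ℕ) + 1 by positivity)]
      have h1 : ((j : ℕ) : ℝ) + 1 ≤ k := by exact_mod_cast j.2
      have h2 : (r : ℝ) * ((((j : ℕ) : ℝ) + 1) * |β|) ≤ r * (k * |β|) :=
        mul_le_mul_of_nonneg_left (mul_le_mul_of_nonneg_right h1 (abs_nonneg _)) (Nat.cast_nonneg _)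
      linarith)
    refine ⟨J.card, hJ.card_pos, (Finset.card_le_univ J).trans (Fintype.card_fin r).le, ?_⟩
    have h1 : (fun j : Fin k => (((j : ℕ) : ℝ) + 1) * ((J.card : ℝ) * β)) =
        fun j : Fin k => ∑ _i ∈ J, (((j : ℕ) : ℝ) + 1) * β := by
      funext j
      rw [Finset.sum_const, nsmul_eq_mul]
      ring
    rw [h1]
    exact hJc

end Pool.Agent.Results.MP_6bc78b_nt.SzemerediSimpleZeros
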