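import Pool.Agent.V1161.ZW.Core
import Pool.Agent.V1161.ZW.Dist
import Pool.Agent.H295R2.SI.Fin
import Pool.Agent.H370R2.Expl1

/-!
# Simple zeros of Hardy's function in windows whose length is a bounded multiple of the mean spacing

Unconditionally.  Let `p = 3/2 - cot(1/√2)/√2 = 0.6725…`, and cut the line, from any starting point,
into windows of `ℓ` mean spacings, where `ℓ` is anything between a constant and `κ log T` (that is, the windows
have a length between a large multiple of the mean spacing and an absolute constant).  For `0 ≤ θ < 1` at least the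
proportion `(p - θ - ε) / (1 - θ)` of the windows contains at least `θ ℓ` simple zeros of `Z`: for instance
67 per cent of the windows contain a simple zero, and 34 per cent contain at least `ℓ / 2`.

The same for `m` rows of windows with arbitrary starting points `T + b_1, …, T + b_m`: for a positive proportion
of the `j` the `j`-th windows of more than `k` of the rows contain `θ_i ℓ` simple zeros, as soon as
`∑ (p - θ_i) / (1 - θ_i) > k`.  For instance, for any three starting points, for 1.7 per cent of the `j`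
all the three `j`-th windows contain simple zeros of `Z`.

Proof.  By the trace inequality for the zeros and Bessel's inequality for sampled exponentials the numbers of
simple critical zeros in the windows, truncated at `(1 + ε) ℓ`, have average at least `(p - ε) ℓ`
(`Pool.Agent.TH342.CV.core` of the starting library, for one fixed length; here uniformly in the length,
`Pool.Agent.V1161.ZW.coreU`); the rest is counting.
-/

open Filter Topology Complex

namespace Pool.Agent.Results.MP_6bc78b_nt.WindowsAtMeanSpacing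

/-- the phase `exp (i ϑ(t))`, with `ϑ(t) = arg Γ(1/4 + i t / 2) - (t / 2) log π` -/
noncomputable def phase (t : ℝ) : ℂ :=
  Gamma (1 / 4 + I * t / 2) / ‖Gamma (1 / 4 + I * t / 2)‖ * cexp (-(I * (t / 2) * Real.log Real.pi))

/-- Hardy's function `Z(t) = exp (i ϑ(t)) ζ(1/2 + i t)` -/
noncomputable def Z (t : ℝ) : ℂ := phase t * riemannZeta (1 / 2 + I * t)

/-- the simple real zeros of `Z` in `(T₁, T₂]` -/
def simpleZeros (T₁ T₂ : ℝ) : Set ℝ := {t : ℝ | T₁ < t ∧ t ≤ T₂ ∧ Z t = 0 ∧ deriv Z t ≠ 0}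

/-- the nontrivial zeros of zeta with ordinate in `(T₁, T₂]` -/
def zeros (T₁ T₂ : ℝ) : Set ℂ :=
  {s : ℂ | riemannZeta s = 0 ∧ 0 < s.re ∧ s.re < 1 ∧ T₁ < s.im ∧ s.im ≤ T₂}

/-- the Montgomery-Taylor proportion `2 - c_MT⁻¹ = 3/2 - cot(1/√2)/√2 = 0.6725…` -/
noncomputable def p : ℝ := 3 / 2 - Real.cot (1 / Real.sqrt 2) / Real.sqrt 2

/-- the length of a window: `ℓ` times the mean spacing `2π / log T` -/
noncomputable def len (T ℓ : ℝ) : ℝ := ℓ * (2 * Real.pi / Real.log T)

/-- the number of simple zeros of `Z` in the `j`-th window of the row which starts at `T + b`: the interval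
`(T + b + j len, T + b + (j + 1) len]`, `len = 2πℓ / log T` -/
noncomputable def count (T ℓ b : ℝ) (j : ℕ) : ℕ :=
  (simpleZeros (T + b + j * len T ℓ) (T + b + (j + 1) * len T ℓ)).ncard

lemma gamma_ne (t : ℝ) : Gamma (1 / 4 + I * t / 2) ≠ 0 := by
  apply Gamma_ne_zero_of_re_pos
  simp

lemma gamma_cont : Continuous fun t : ℝ => Gamma (1 / 4 + I * t / 2) := by
  rw [continuous_iff_continuousAt]
  intro t
  have h1 : ContinuousAt Gamma (1 / 4 + I * t / 2) := by
    refine (differentiableAt_Gamma _ fun m hm => ?_).continuousAt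
    have := congrArg Complex.re hm
    simp at this
    have hm0 : (0 : ℝ) ≤ m := Nat.cast_nonneg m
    linarith
  exact ContinuousAt.comp (f := fun t : ℝ => (1 / 4 + I * t / 2 : ℂ)) h1 (by fun_prop)

lemma phase_cont : Continuous phase := by
  unfold phase
  refine Continuous.mul (gamma_cont.div ?_ ?_) (by fun_prop)
  · exact Complex.continuous_ofReal.comp gamma_cont.norm
  · intro t
    rw [Complex.ofReal_ne_zero]
    exact norm_ne_zero_iff.mpr (gamma_ne t)

lemma phase_ne (t : ℝ) : phase t ≠ 0 := by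
  unfold phase
  refine mul_ne_zero (div_ne_zero (gamma_ne t) ?_) (Complex.exp_ne_zero _)
  rw [Complex.ofReal_ne_zero]
  exact norm_ne_zero_iff.mpr (gamma_ne t)

lemma Z_zero_iff (t : ℝ) : Z t = 0 ↔ riemannZeta (1 / 2 + I * t) = 0 := by
  unfold Z
  rw [mul_eq_zero]
  exact ⟨fun h => h.resolve_left (phase_ne t), Or.inr⟩

lemma zeta_diff (t : ℝ) : DifferentiableAt ℂ riemannZeta (1 / 2 + I * t) := by
  refine differentiableAt_riemannZeta fun h => ?_
  have := congrArg Complex.re h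
  norm_num at this

lemma Z_hasDerivAt (t : ℝ) (h : riemannZeta (1 / 2 + I * t) = 0) :
    HasDerivAt Z (phase t * (deriv riemannZeta (1 / 2 + I * t) * I)) t := by
  have hg : HasDerivAt (fun u : ℝ => riemannZeta (1 / 2 + I * u))
      (deriv riemannZeta (1 / 2 + I * t) * I) t := by
    have h1 : HasDerivAt (fun u : ℝ => (1 / 2 + I * u : ℂ)) I t := by
      have h2 : HasDerivAt (fun u : ℝ => (u : ℂ)) 1 t := Complex.ofRealCLM.hasDerivAt
      simpa using (h2.const_mul I).const_add (1 / 2 : ℂ)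
    exact HasDerivAt.comp (h₂ := riemannZeta) t (zeta_diff t).hasDerivAt h1
  rw [hasDerivAt_iff_tendsto_slope] at hg ⊢
  have h3 : Tendsto phase (𝓝[≠] t) (𝓝 (phase t)) :=
    phase_cont.continuousAt.tendsto.mono_left nhdsWithin_le_nhds
  refine (h3.mul hg).congr fun u => ?_
  have hZ : Z t = 0 := (Z_zero_iff t).mpr h
  rw [slope_def_module, slope_def_module, hZ, h, sub_zero, sub_zero]
  unfold Z
  simp only [Complex.real_smul]
  ring

lemma zeta_analytic {s : ℂ} (hs : s ≠ 1) : AnalyticAt ℂ riemannZeta s := by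
  have : DifferentiableOn ℂ riemannZeta ({1}ᶜ : Set ℂ) := fun z hz =>
    (differentiableAt_riemannZeta hz).differentiableWithinAt
  exact this.analyticAt (isOpen_compl_singleton.mem_nhds hs)

/-- a zero of `Z` is simple if the corresponding zero of zeta is simple -/
lemma simple_of_order {t : ℝ} (h : riemannZeta (1 / 2 + I * t) = 0)
    (h1 : analyticOrderNatAt riemannZeta (1 / 2 + I * t) = 1) : deriv Z t ≠ 0 := by
  rw [(Z_hasDerivAt t h).deriv]
  refine mul_ne_zero (phase_ne t) (mul_ne_zero ?_ I_ne_zero)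
  have hs : (1 / 2 + I * t : ℂ) ≠ 1 := by
    intro h
    have := congrArg Complex.re h
    norm_num at this
  have ha := zeta_analytic hs
  have h2 : analyticOrderAt riemannZeta (1 / 2 + I * t) = 1 := by
    unfold analyticOrderNatAt at h1
    have h3 : analyticOrderAt riemannZeta (1 / 2 + I * t) ≠ ⊤ := by
      intro h4; rw [h4] at h1; simp at h1
    rw [← ENat.natCast_toNat h3, h1]; rfl
  have h3 := ha.analyticOrderAt_deriv_add_one
  simp only [h, sub_zero] at h3
  rw [h2] at h3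
  have h4 : analyticOrderAt (deriv riemannZeta) (1 / 2 + I * t) = 0 := by
    revert h3
    generalize analyticOrderAt (deriv riemannZeta) (1 / 2 + I * t) = x
    intro h3
    cases x with
    | top => simp at h3
    | coe n =>
      have h6 : n + 1 = 1 := by exact_mod_cast h3
      have h7 : n = 0 := by omega
      rw [h7]; rfl
  exact ha.deriv.analyticOrderAt_eq_zero.mp h4

lemma zeros_eq (T₁ T₂ : ℝ) : zeros T₁ T₂ = H370.zset riemannZeta T₁ T₂ := by
  ext s
  simp only [zeros, H370.zset, Set.mem_ofPred_eq]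
  tauto

/-- the sets of nontrivial zeros that are counted are finite -/
theorem zeros_finite (T₁ T₂ : ℝ) (h : 0 < T₁) : (zeros T₁ T₂).Finite := by
  rw [zeros_eq]
  exact H370.zset_finite' H370.good_zeta T₁ T₂ h

/-- the sets of simple zeros of `Z` that are counted are finite -/
theorem simpleZeros_finite (T₁ T₂ : ℝ) (h : 0 < T₁) : (simpleZeros T₁ T₂).Finite := by
  have hinj : Function.Injective fun t : ℝ => (1 / 2 + I * t : ℂ) := by
    intro a b hab
    have := congrArg Complex.im hab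
    simpa using this
  refine Set.Finite.of_finite_image ((zeros_finite T₁ T₂ h).subset ?_) hinj.injOn
  rintro s ⟨t, ⟨h1, h2, h3, h4⟩, rfl⟩
  refine ⟨(Z_zero_iff t).mp h3, ?_, ?_, ?_, ?_⟩ <;> simp <;> first | assumption | norm_num


lemma p_eq : p = 2 - H370.cMTinv := by
  unfold p H370.cMTinv
  ring

lemma p_num : 0.672497 ≤ p := by
  rw [p_eq]
  have := H370.Expl.cMTinv_num
  norm_num at this ⊢
  linarith

lemma cnt_le {u v : ℝ} (hu : 0 < u) :
    Pool.Agent.TH342.CV.cnt riemannZeta u v ≤ (simpleZeros u v).ncard := by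
  unfold Pool.Agent.TH342.CV.cnt
  apply Set.ncard_le_ncard _ (simpleZeros_finite u v hu)
  rintro x ⟨h1, h2, h3, h4⟩
  have e : (1 / 2 + I * (x : ℂ)) = 1 / 2 + x * I := by ring
  rw [← e] at h3 h4
  exact ⟨h1, h2, (Z_zero_iff x).2 h3, simple_of_order h3 h4⟩

open Finset in
/-- the general inequality -/
theorem general {ε : ℝ} (hε : 0 < ε) : ∃ ℓ₀ κ δ T₀ : ℝ, 0 < ℓ₀ ∧ 0 < κ ∧ 0 < δ ∧ δ < 1 ∧ 10 ≤ T₀ ∧
    ∀ T : ℝ, T₀ ≤ T → ∀ ℓ : ℝ, ℓ₀ ≤ ℓ → ℓ ≤ κ * Real.log T →
    ∀ N : ℕ, T ^ (1 - δ) ≤ N * len T ℓ → N * len T ℓ ≤ T →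
    ∀ m k : ℕ, k < m → ∀ θ b : Fin m → ℝ, (∀ i, 0 ≤ θ i ∧ θ i < 1) →
      (∀ i, 0 ≤ b i ∧ b i ≤ T ^ (1 + δ)) →
      ((∑ i, (p - θ i - ε) / (1 - θ i)) - k) * N ≤ (m - k) *
        (((range N).filter (fun j =>
          k + 1 ≤ (univ.filter (fun i => θ i * ℓ ≤ (count T ℓ (b i) j : ℝ))).card)).card : ℝ) := by
  classical
  set e : ℝ := min (ε / 2) 1 with he
  have he0 : 0 < e := lt_min (by positivity) one_pos
  have he1 : e ≤ 1 := min_le_right _ _
  have he2 : e ≤ ε / 2 := min_le_left _ _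
  obtain ⟨g₀, hg₀, κ, hκ, d, hd0, hd1, h⟩ := Pool.Agent.V1161.ZW.coreU he0 he1
  obtain ⟨T₀, hT₀, hT⟩ := h riemannZeta H370.good_zeta
  refine ⟨g₀, κ, d, T₀, hg₀, hκ, hd0, hd1, hT₀, fun T hTT ℓ hℓ1 hℓ2 N hN1 hN2 m k hkm θ b hθ hb => ?_⟩
  have hℓ0 : 0 < ℓ := hg₀.trans_le hℓ1
  have hT10 : 10 ≤ T := hT₀.trans hTT
  have hlog : 0 < Real.log T := Real.log_pos (by linarith)
  have hlen : 0 < len T ℓ := by unfold len; have := Real.pi_pos; positivity
  have hN0 : (0 : ℝ) ≤ N := Nat.cast_nonneg _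
  have hrow : ∀ i, (p - e - e - θ i) * N ≤ (1 - θ i) *
      (((range N).filter (fun j => θ i * ℓ ≤ (count T ℓ (b i) j : ℝ))).card : ℝ) := by
    intro i
    apply Pool.Agent.V1161.ZW.rich_card N (fun j => (count T ℓ (b i) j : ℝ)) ℓ (θ i) e (p - e) hℓ0 he0.le
    have h1 := hT T hTT ℓ hℓ1 hℓ2 (b i) (hb i).1 (hb i).2 N hN1 hN2
    rw [← p_eq] at h1
    refine h1.trans (sum_le_sum fun j _ => ?_)
    apply min_le_min_right
    unfold count
    have h2 : (0 : ℝ) ≤ j * len T ℓ := by positivity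
    exact_mod_cast cnt_le (u := T + b i + j * len T ℓ) (v := T + b i + (j + 1) * len T ℓ)
      (by linarith [(hb i).1])
  have hrow' : ∀ i, (p - θ i - ε) / (1 - θ i) * N ≤
      (((range N).filter (fun j => θ i * ℓ ≤ (count T ℓ (b i) j : ℝ))).card : ℝ) := by
    intro i
    have h1 : 0 < 1 - θ i := by linarith [(hθ i).2]
    rw [div_mul_eq_mul_div, div_le_iff₀ h1]
    have h2 : (p - θ i - ε) * N ≤ (p - e - e - θ i) * N :=
      mul_le_mul_of_nonneg_right (by linarith) hN0
    linarith [hrow i]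
  have hj := Pool.Agent.V1161.ZW.joint_card N m k
    (fun i => (range N).filter (fun j => θ i * ℓ ≤ (count T ℓ (b i) j : ℝ))) (fun i => filter_subset _ _)
  have hs : (∑ i, (p - θ i - ε) / (1 - θ i)) * N ≤
      ∑ i, (((range N).filter (fun j => θ i * ℓ ≤ (count T ℓ (b i) j : ℝ))).card : ℝ) := by
    rw [sum_mul]
    exact sum_le_sum fun i _ => hrow' i
  have e1 : (range N).filter (fun j =>
          k + 1 ≤ (univ.filter (fun i => θ i * ℓ ≤ (count T ℓ (b i) j : ℝ))).card) =
      (range N).filter (fun j => k + 1 ≤ (univ.filter (fun i => j ∈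
        (range N).filter (fun j => θ i * ℓ ≤ (count T ℓ (b i) j : ℝ)))).card) := by
    apply filter_congr
    intro j hj
    have : univ.filter (fun i => θ i * ℓ ≤ (count T ℓ (b i) j : ℝ)) = univ.filter (fun i => j ∈
        (range N).filter (fun j => θ i * ℓ ≤ (count T ℓ (b i) j : ℝ))) := by
      apply filter_congr
      intro i _
      rw [mem_filter]
      exact ⟨fun h => ⟨hj, h⟩, fun h => h.2⟩
    rw [this]
  rw [e1, sub_mul]
  linarith

open Finset in
theorem result :
    -- the general inequality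
    (∀ ε : ℝ, 0 < ε → ∃ ℓ₀ κ δ T₀ : ℝ, 0 < ℓ₀ ∧ 0 < κ ∧ 0 < δ ∧ δ < 1 ∧
      ∀ T : ℝ, T₀ ≤ T → ∀ ℓ : ℝ, ℓ₀ ≤ ℓ → ℓ ≤ κ * Real.log T →
      ∀ N : ℕ, T ^ (1 - δ) ≤ N * len T ℓ → N * len T ℓ ≤ T →
      ∀ m k : ℕ, k < m → ∀ θ b : Fin m → ℝ, (∀ i, 0 ≤ θ i ∧ θ i < 1) →
        (∀ i, 0 ≤ b i ∧ b i ≤ T ^ (1 + δ)) →
        ((∑ i, (p - θ i - ε) / (1 - θ i)) - k) * N ≤ (m - k) *
          (((range N).filter (fun j =>
            k + 1 ≤ (univ.filter (fun i => θ i * ℓ ≤ (count T ℓ (b i) j : ℝ))).card)).card : ℝ)) ∧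
    0.672497 ≤ p ∧
    -- numerical examples
    (∃ ℓ₀ κ δ T₀ : ℝ, 0 < ℓ₀ ∧ 0 < κ ∧ 0 < δ ∧ δ < 1 ∧
      ∀ T : ℝ, T₀ ≤ T → ∀ ℓ : ℝ, ℓ₀ ≤ ℓ → ℓ ≤ κ * Real.log T →
      ∀ N : ℕ, T ^ (1 - δ) ≤ N * len T ℓ → N * len T ℓ ≤ T →
      ∀ b : Fin 3 → ℝ, (∀ i, 0 ≤ b i ∧ b i ≤ T ^ (1 + δ)) →
        67 / 100 * (N : ℝ) ≤ (((range N).filter (fun j => 1 ≤ count T ℓ (b 0) j)).card : ℝ) ∧
        34 / 100 * (N : ℝ) ≤ (((range N).filter (fun j => ℓ / 2 ≤ (count T ℓ (b 0) j : ℝ))).card : ℝ) ∧
        17 / 1000 * (N : ℝ) ≤ (((range N).filter (fun j => ∀ i, 1 ≤ count T ℓ (b i) j)).card : ℝ)) := by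
  classical
  have hp := p_num
  refine ⟨fun ε hε => ?_, hp, ?_⟩
  · obtain ⟨ℓ₀, κ, δ, T₀, h1, h2, h3, h4, -, h5⟩ := general hε
    exact ⟨ℓ₀, κ, δ, T₀, h1, h2, h3, h4, h5⟩
  · obtain ⟨ℓ₀, κ, δ, T₀, h1, h2, h3, h4, h5, h6⟩ := general (ε := 1 / 20000) (by norm_num)
    refine ⟨ℓ₀, κ, δ, T₀, h1, h2, h3, h4, fun T hT ℓ hℓ1 hℓ2 N hN1 hN2 b hb => ?_⟩
    have hℓ0 : 0 < ℓ := h1.trans_le hℓ1
    have hN0 : (0 : ℝ) ≤ N := Nat.cast_nonneg _
    have key := h6 T hT ℓ hℓ1 hℓ2 N hN1 hN2
    -- one window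
    have hone : ∀ θ : ℝ, 0 ≤ θ → θ < 1 → ((p - θ - 1 / 20000) / (1 - θ)) * N ≤
        (((range N).filter (fun j => θ * ℓ ≤ (count T ℓ (b 0) j : ℝ))).card : ℝ) := by
      intro θ hθ0 hθ1
      have h7 := key 1 0 (by norm_num) (fun _ => θ) (fun _ => b 0) (fun _ => ⟨hθ0, hθ1⟩)
        (fun _ => hb 0)
      simp only [Finset.univ_unique, Finset.sum_singleton, Nat.cast_zero, sub_zero, Nat.cast_one,
        one_mul] at h7
      refine h7.trans (le_of_eq ?_)
      congr 2
      apply filter_congr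
      intro j _
      constructor
      · intro h8
        obtain ⟨i, hi⟩ := card_pos.1 (show 0 < _ from h8)
        exact (mem_filter.1 hi).2
      · intro h8
        apply card_pos.2
        exact ⟨default, mem_filter.2 ⟨mem_singleton_self _, h8⟩⟩
    refine ⟨?_, ?_, ?_⟩
    · refine le_trans ?_ ((hone (1 / 20000) (by norm_num) (by norm_num)).trans ?_)
      · apply mul_le_mul_of_nonneg_right _ hN0
        rw [le_div_iff₀ (by norm_num)]
        norm_num at hp ⊢
        linarith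
      · have : ((range N).filter (fun j => 1 / 20000 * ℓ ≤ (count T ℓ (b 0) j : ℝ))) ⊆
            ((range N).filter (fun j => 1 ≤ count T ℓ (b 0) j)) := by
          intro j hj
          rw [mem_filter] at hj ⊢
          refine ⟨hj.1, ?_⟩
          have h8 : (0 : ℝ) < count T ℓ (b 0) j := lt_of_lt_of_le (by positivity) hj.2
          exact_mod_cast h8
        exact_mod_cast card_le_card this
    · have h8 := hone (1 / 2) (by norm_num) (by norm_num)
      have e1 : ∀ j, (1 / 2 * ℓ ≤ (count T ℓ (b 0) j : ℝ)) = (ℓ / 2 ≤ (count T ℓ (b 0) j : ℝ)) := by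
        intro j; rw [show 1 / 2 * ℓ = ℓ / 2 by ring]
      simp only [e1] at h8
      refine le_trans ?_ h8
      apply mul_le_mul_of_nonneg_right _ hN0
      rw [le_div_iff₀ (by norm_num)]
      norm_num at hp ⊢
      linarith
    · have h9 := key 3 2 (by norm_num) (fun _ => 1 / 20000) b
        (fun _ => ⟨by norm_num, by norm_num⟩) hb
      have e2 : ((3 : ℕ) : ℝ) - ((2 : ℕ) : ℝ) = 1 := by norm_num
      rw [e2, one_mul] at h9
      refine le_trans ?_ (h9.trans ?_)
      · apply mul_le_mul_of_nonneg_right _ hN0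
        simp only [sum_const, card_univ, Fintype.card_fin, nsmul_eq_mul]
        have h10 : (p - 1 / 20000 - 1 / 20000) / (1 - 1 / 20000) ≥ p - 1 / 10000 := by
          rw [ge_iff_le, le_div_iff₀ (by norm_num)]
          norm_num at hp ⊢
          linarith
        norm_num at hp h10 ⊢
        linarith
      · have : ((range N).filter (fun j => 2 + 1 ≤ (univ.filter (fun i : Fin 3 =>
              1 / 20000 * ℓ ≤ (count T ℓ (b i) j : ℝ))).card)) ⊆
            ((range N).filter (fun j => ∀ i, 1 ≤ count T ℓ (b i) j)) := by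
          intro j hj
          rw [mem_filter] at hj ⊢
          refine ⟨hj.1, fun i => ?_⟩
          have h11 : univ.filter (fun i : Fin 3 => 1 / 20000 * ℓ ≤ (count T ℓ (b i) j : ℝ)) = univ := by
            apply eq_univ_of_card
            rw [Fintype.card_fin]
            apply le_antisymm _ hj.2
            calc _ ≤ (univ : Finset (Fin 3)).card := card_le_univ _
              _ = 3 := by simp
          have h12 : i ∈ univ.filter (fun i : Fin 3 => 1 / 20000 * ℓ ≤ (count T ℓ (b i) j : ℝ)) := by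
            rw [h11]; exact mem_univ _
          have h13 := (mem_filter.1 h12).2
          have h8 : (0 : ℝ) < count T ℓ (b i) j := lt_of_lt_of_le (by positivity) h13
          exact_mod_cast h8
        exact_mod_cast card_le_card this

end Pool.Agent.Results.MP_6bc78b_nt.WindowsAtMeanSpacing
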